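import Pool.Agent.Helper67.CubeDefs

/-!
# Random regular triangulations of the cube: definitions and the modules

Heights `h v` of the vertices `v` of the cube are independent with
`P(h v > t) = exp (-exp t)`; the expected number of simplices of the regular triangulation is at
most `π^d * sqrt (d! / (d+1))`.
-/

set_option autoImplicit false

namespace Pool.Agent.Helper66.SC

open Finset MeasureTheory

/-- the vertices of the cube -/
abbrev Vt (d : ℕ) : Type := Fin d → Bool

/-- the point of a vertex -/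
def pt {d : ℕ} (v : Vt d) : Fin d → ℝ := fun i => if v i then 1 else 0

/-- the row `(1, v)` -/
def row {d : ℕ} (v : Vt d) : Fin (d + 1) → ℝ := Fin.cons 1 (pt v)

/-- the value at `v` of the affine function with coefficients `l` -/
def ev {d : ℕ} (l : Fin (d + 1) → ℝ) (v : Vt d) : ℝ := ∑ j, row v j * l j

/-- the matrix with the rows `(1, s i)` -/
def mat {d : ℕ} (s : Fin (d + 1) → Vt d) : Matrix (Fin (d + 1)) (Fin (d + 1)) ℝ :=
  Matrix.of fun i j => row (s i) j

/-- the (ordered) simplex `s` is a lower simplex for the heights `h` -/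
def Low {d : ℕ} (h : Vt d → ℝ) (s : Fin (d + 1) → Vt d) : Prop :=
  (mat s).det ≠ 0 ∧
    ∀ l, (∀ i, ev l (s i) = h (s i)) → ∀ v, v ∉ Set.range s → ev l v < h v

/-- the heights are generic -/
def Gen {d : ℕ} (h : Vt d → ℝ) : Prop :=
  ∀ s : Fin (d + 1) → Vt d, (mat s).det ≠ 0 →
    ∀ l, (∀ i, ev l (s i) = h (s i)) → ∀ v, v ∉ Set.range s → ev l v ≠ h v

/-- the number of ordered lower simplices -/
noncomputable def numLow {d : ℕ} (h : Vt d → ℝ) : ℕ :=
  Nat.card {s : Fin (d + 1) → Vt d // Low h s}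

/-- the partition function -/
noncomputable def Z {d : ℕ} (l : Fin (d + 1) → ℝ) : ℝ := ∑ v : Vt d, Real.exp (ev l v)

/-- `sqrt (x (1 - x))` for `x = e^b / (1 + e^b)` -/
noncomputable def sg (b : ℝ) : ℝ := Real.exp (b / 2) / (1 + Real.exp b)

/-- the density of one height -/
noncomputable def g (t : ℝ) : ENNReal := ENNReal.ofReal (Real.exp t * Real.exp (-Real.exp t))

/-- the density of the heights -/
noncomputable def G {d : ℕ} (h : Vt d → ℝ) : ENNReal := ∏ v, g (h v)

/-- SC-1: generic heights give a triangulation -/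
def StTri : Prop := ∀ (d : ℕ) (h : Vt d → ℝ), Gen h →
  ∃ (N : ℕ) (W : Fin N → Fin (d + 1) → Fin d → ℝ),
    Helper67.Cube.IsTriangulation W ∧ Helper67.Cube.IsVertexFamily W ∧
      N * (d + 1).factorial ≤ numLow h

/-- SC-2: the sum of the weighted determinants -/
def StAlg : Prop := ∀ (d : ℕ) (l : Fin (d + 1) → ℝ),
  ∑ s : Fin (d + 1) → Vt d, |(mat s).det| * ∏ i, Real.exp (ev l (s i)) ≤
    Real.sqrt ((d + 1).factorial) * Z l ^ (d + 1) * ∏ i : Fin d, sg (l i.succ)

/-- SC-3: the probability that `s` is lower -/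
def StProb : Prop := ∀ (d : ℕ) (s : Fin (d + 1) → Vt d), (mat s).det ≠ 0 →
  MeasurableSet {h : Vt d → ℝ | Low h s} ∧
  ∫⁻ h : Vt d → ℝ, (Set.indicator {h | Low h s} G h) ≤
    ∫⁻ l : Fin (d + 1) → ℝ, ENNReal.ofReal
      (|(mat s).det| * (∏ i, Real.exp (ev l (s i))) * Real.exp (-Z l))

/-- SC-4: the integral -/
def StInt : Prop := ∀ d : ℕ,
  ∫⁻ l : Fin (d + 1) → ℝ, ENNReal.ofReal
      (Real.exp (-Z l) * Z l ^ (d + 1) * ∏ i : Fin d, sg (l i.succ)) ≤
    ENNReal.ofReal (d.factorial * Real.pi ^ d)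

/-- SC-5: heights are generic almost everywhere, and the density has total mass one -/
def StGen : Prop := ∀ d : ℕ, (∀ᵐ h : Vt d → ℝ, Gen h) ∧ ∫⁻ h : Vt d → ℝ, G h = 1

/-- the goal -/
def StGoal : Prop := ∀ d : ℕ, ∃ (N : ℕ) (W : Fin N → Fin (d + 1) → Fin d → ℝ),
  Helper67.Cube.IsTriangulation W ∧ Helper67.Cube.IsVertexFamily W ∧
    (N : ℝ) ≤ Real.pi ^ d * Real.sqrt (d.factorial / (d + 1))

end Pool.Agent.Helper66.SC
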