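import Pool.Agent.Helper66.SC.Spec

/-!
# Assembly of the modules
-/

set_option autoImplicit false

namespace Pool.Agent.Helper66.SC

open Finset MeasureTheory

variable {d : ℕ}

theorem measurable_G : Measurable (G : (Vt d → ℝ) → ENNReal) := by
  unfold G g
  fun_prop

theorem measurable_term (s : Fin (d + 1) → Vt d) : Measurable fun l : Fin (d + 1) → ℝ =>
    ENNReal.ofReal (|(mat s).det| * (∏ i, Real.exp (ev l (s i))) * Real.exp (-Z l)) := by
  unfold Z ev
  fun_prop

theorem numLow_mul (h : Vt d → ℝ) : (numLow h : ENNReal) * G h =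
    ∑ s : Fin (d + 1) → Vt d, Set.indicator {h | Low h s} G h := by
  classical
  have e1 : ∀ s : Fin (d + 1) → Vt d, Set.indicator {h | Low h s} G h =
      (if Low h s then 1 else 0) * G h := by
    intro s
    rw [Set.indicator_apply]
    by_cases hs : Low h s
    · rw [if_pos hs, if_pos (show h ∈ {h | Low h s} from hs), one_mul]
    · rw [if_neg hs, if_neg (show ¬ h ∈ {h | Low h s} from hs), zero_mul]
  rw [sum_congr rfl fun s _ => e1 s, ← sum_mul]
  congr 1
  rw [numLow, Nat.card_eq_fintype_card, Fintype.card_subtype]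
  simp

theorem lintegral_numLow (h2 : StAlg) (h3 : StProb) (h4 : StInt) :
    ∫⁻ h : Vt d → ℝ, (numLow h : ENNReal) * G h ≤
      ENNReal.ofReal (Real.sqrt ((d + 1).factorial) * (d.factorial * Real.pi ^ d)) := by
  have hm : ∀ s : Fin (d + 1) → Vt d, MeasurableSet {h : Vt d → ℝ | Low h s} := by
    intro s
    by_cases hs : (mat s).det = 0
    · have : {h : Vt d → ℝ | Low h s} = ∅ := by
        ext h
        simp [Low, hs]
      rw [this]
      exact MeasurableSet.empty
    · exact (h3 d s hs).1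
  have hle : ∀ s : Fin (d + 1) → Vt d, ∫⁻ h : Vt d → ℝ, Set.indicator {h | Low h s} G h ≤
      ∫⁻ l : Fin (d + 1) → ℝ, ENNReal.ofReal
        (|(mat s).det| * (∏ i, Real.exp (ev l (s i))) * Real.exp (-Z l)) := by
    intro s
    by_cases hs : (mat s).det = 0
    · have : {h : Vt d → ℝ | Low h s} = ∅ := by
        ext h
        simp [Low, hs]
      rw [this]
      simp
    · exact (h3 d s hs).2
  calc ∫⁻ h : Vt d → ℝ, (numLow h : ENNReal) * G h
      = ∫⁻ h : Vt d → ℝ, ∑ s : Fin (d + 1) → Vt d, Set.indicator {h | Low h s} G h := by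
        simp only [numLow_mul]
    _ = ∑ s : Fin (d + 1) → Vt d, ∫⁻ h : Vt d → ℝ, Set.indicator {h | Low h s} G h :=
        lintegral_finset_sum _ fun s _ => measurable_G.indicator (hm s)
    _ ≤ ∑ s : Fin (d + 1) → Vt d, ∫⁻ l : Fin (d + 1) → ℝ, ENNReal.ofReal
        (|(mat s).det| * (∏ i, Real.exp (ev l (s i))) * Real.exp (-Z l)) :=
        sum_le_sum fun s _ => hle s
    _ = ∫⁻ l : Fin (d + 1) → ℝ, ∑ s : Fin (d + 1) → Vt d, ENNReal.ofReal
        (|(mat s).det| * (∏ i, Real.exp (ev l (s i))) * Real.exp (-Z l)) :=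
        (lintegral_finset_sum _ fun s _ => measurable_term s).symm
    _ ≤ ∫⁻ l : Fin (d + 1) → ℝ, ENNReal.ofReal (Real.sqrt ((d + 1).factorial)) *
        ENNReal.ofReal (Real.exp (-Z l) * Z l ^ (d + 1) * ∏ i : Fin d, sg (l i.succ)) := by
        refine lintegral_mono fun l => ?_
        simp only
        rw [← ENNReal.ofReal_sum_of_nonneg (fun s _ => by positivity),
          ← ENNReal.ofReal_mul (Real.sqrt_nonneg _), ← sum_mul]
        refine ENNReal.ofReal_le_ofReal ?_
        have := mul_le_mul_of_nonneg_right (h2 d l) (Real.exp_pos (-Z l)).le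
        linarith
    _ = ENNReal.ofReal (Real.sqrt ((d + 1).factorial)) * ∫⁻ l : Fin (d + 1) → ℝ,
        ENNReal.ofReal (Real.exp (-Z l) * Z l ^ (d + 1) * ∏ i : Fin d, sg (l i.succ)) :=
        lintegral_const_mul' _ _ ENNReal.ofReal_ne_top
    _ ≤ ENNReal.ofReal (Real.sqrt ((d + 1).factorial)) *
        ENNReal.ofReal (d.factorial * Real.pi ^ d) := by gcongr; exact h4 d
    _ = _ := (ENNReal.ofReal_mul (Real.sqrt_nonneg _)).symm

theorem exists_heights (h2 : StAlg) (h3 : StProb) (h4 : StInt) (h5 : StGen) (d : ℕ) :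
    ∃ h : Vt d → ℝ, Gen h ∧
      (numLow h : ℝ) ≤ Real.sqrt ((d + 1).factorial) * (d.factorial * Real.pi ^ d) := by
  by_contra hcon
  have hlt : ∀ h : Vt d → ℝ, Gen h →
      Real.sqrt ((d + 1).factorial) * (d.factorial * Real.pi ^ d) < (numLow h : ℝ) := by
    intro h hg
    by_contra hc
    exact hcon ⟨h, hg, not_lt.1 hc⟩
  set M := Real.sqrt ((d + 1).factorial) * (d.factorial * Real.pi ^ d) with hM
  have hM0 : 0 ≤ M := by positivity
  set K := ⌊M⌋₊ + 1 with hK
  have hKM : M < (K : ℝ) := by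
    rw [hK]
    push_cast
    exact Nat.lt_floor_add_one M
  have h6 : ∀ h : Vt d → ℝ, Gen h → (K : ENNReal) ≤ (numLow h : ENNReal) := by
    intro h hg
    have h7 : ⌊M⌋₊ < numLow h := (Nat.floor_lt hM0).2 (hlt h hg)
    exact_mod_cast h7
  have h7 : (K : ENNReal) ≤ ∫⁻ h : Vt d → ℝ, (numLow h : ENNReal) * G h := by
    calc (K : ENNReal) = (K : ENNReal) * ∫⁻ h : Vt d → ℝ, G h := by rw [(h5 d).2, mul_one]
      _ = ∫⁻ h : Vt d → ℝ, (K : ENNReal) * G h :=
          (lintegral_const_mul' _ _ (ENNReal.natCast_ne_top K)).symm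
      _ ≤ _ := by
          refine lintegral_mono_ae ?_
          filter_upwards [(h5 d).1] with h hg
          exact mul_le_mul_left (h6 h hg) _
  have h8 := h7.trans (lintegral_numLow h2 h3 h4)
  rw [← hM, ENNReal.le_ofReal_iff_toReal_le (ENNReal.natCast_ne_top K) hM0,
    ENNReal.toReal_natCast] at h8
  linarith

theorem goal (h1 : StTri) (h2 : StAlg) (h3 : StProb) (h4 : StInt) (h5 : StGen) : StGoal := by
  intro d
  obtain ⟨h, hg, hn⟩ := exists_heights h2 h3 h4 h5 d
  obtain ⟨N, W, hT, hV, hN⟩ := h1 d h hg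
  refine ⟨N, W, hT, hV, ?_⟩
  have hf : (0 : ℝ) < (d + 1).factorial := by exact_mod_cast Nat.factorial_pos _
  have hN' : (N : ℝ) * (d + 1).factorial ≤ numLow h := by exact_mod_cast hN
  have h6 := hN'.trans hn
  have h7 : Real.sqrt (d.factorial / (d + 1)) = Real.sqrt ((d + 1).factorial) / (d + 1) := by
    have e1 : (d.factorial : ℝ) / (d + 1) = ((d + 1).factorial : ℝ) / (d + 1) ^ 2 := by
      rw [Nat.factorial_succ]
      push_cast
      field_simp
    rw [e1, Real.sqrt_div' _ (by positivity), Real.sqrt_sq (by positivity)]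
  have h8 : Real.pi ^ d * Real.sqrt (d.factorial / (d + 1)) * (d + 1).factorial =
      Real.sqrt ((d + 1).factorial) * (d.factorial * Real.pi ^ d) := by
    rw [h7]
    conv_lhs => rw [Nat.factorial_succ d]
    rw [Nat.factorial_succ]
    push_cast
    field_simp
  rw [← h8] at h6
  exact le_of_mul_le_mul_right h6 hf

end Pool.Agent.Helper66.SC
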