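import Mathlib

/-!
# Comparison of `π^d sqrt (d! / (d+1))` with `(9/4 sqrt d)^d`
-/

set_option autoImplicit false

namespace Pool.Agent.Helper66.SC

theorem two_le_pow (d : ℕ) (hd : 1 ≤ d) : 2 * (d : ℝ) ^ d ≤ ((d : ℝ) + 1) ^ d := by
  have hd0 : (0 : ℝ) < d := by exact_mod_cast hd
  have h1 : 1 + (d : ℝ) * (1 / d) ≤ (1 + 1 / (d : ℝ)) ^ d :=
    one_add_mul_le_pow (by have : (0:ℝ) ≤ 1 / d := by positivity
                           linarith) d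
  have h2 : (1 : ℝ) + d * (1 / d) = 2 := by field_simp; norm_num
  rw [h2] at h1
  have h3 := mul_le_mul_of_nonneg_right h1 (pow_nonneg hd0.le d)
  rw [← mul_pow] at h3
  have h4 : (1 + 1 / (d : ℝ)) * d = d + 1 := by field_simp
  rwa [h4] at h3

theorem num_ineq (d : ℕ) (hd : 1 ≤ d) :
    (63 / 20 : ℝ) ^ (2 * d) * d.factorial ≤ (d + 1) * ((81 / 16 : ℝ) ^ d * (d : ℝ) ^ d) := by
  induction d, hd using Nat.le_induction with
  | base => norm_num
  | succ d hd ih =>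
    have hd0 : (0 : ℝ) < d := by exact_mod_cast hd
    have h1 := two_le_pow d hd
    have h2 : (63 / 20 : ℝ) ^ (2 * (d + 1)) * (d + 1).factorial =
        (63 / 20) ^ 2 * (d + 1) * ((63 / 20 : ℝ) ^ (2 * d) * d.factorial) := by
      rw [Nat.factorial_succ, mul_add, pow_add]
      push_cast
      ring
    rw [h2]
    have h3 : (63 / 20 : ℝ) ^ 2 * (d + 1) * ((63 / 20 : ℝ) ^ (2 * d) * d.factorial) ≤
        (63 / 20) ^ 2 * (d + 1) * ((d + 1) * ((81 / 16 : ℝ) ^ d * (d : ℝ) ^ d)) :=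
      mul_le_mul_of_nonneg_left ih (by positivity)
    refine h3.trans ?_
    push_cast
    have h4 : (81 / 16 : ℝ) ^ (d + 1) * ((d : ℝ) + 1) ^ (d + 1) =
        (81 / 16) * (d + 1) * ((81 / 16 : ℝ) ^ d * ((d : ℝ) + 1) ^ d) := by ring
    rw [h4]
    have h5 : (81 / 16 : ℝ) ^ d * (2 * (d : ℝ) ^ d) ≤ (81 / 16 : ℝ) ^ d * ((d : ℝ) + 1) ^ d :=
      mul_le_mul_of_nonneg_left h1 (by positivity)
    have h6 : (0 : ℝ) ≤ (81 / 16 : ℝ) ^ d * (d : ℝ) ^ d := by positivity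
    have h7 : ((d : ℝ) + 1 + 1) * ((81 / 16) * (d + 1) * ((81 / 16 : ℝ) ^ d * (2 * (d : ℝ) ^ d))) ≤
        ((d : ℝ) + 1 + 1) * ((81 / 16) * (d + 1) * ((81 / 16 : ℝ) ^ d * ((d : ℝ) + 1) ^ d)) := by
      gcongr
    refine le_trans ?_ h7
    have h8 : (63 / 20 : ℝ) ^ 2 * (d + 1) * (d + 1) ≤ (d + 1 + 1) * (81 / 16 * (d + 1) * 2) := by
      nlinarith
    have h9 := mul_le_mul_of_nonneg_right h8 h6
    linarith

theorem bound_le (d : ℕ) (hd : 1 ≤ d) :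
    Real.pi ^ d * Real.sqrt (d.factorial / (d + 1)) ≤ (9 / 4 * Real.sqrt d) ^ d := by
  have hpi : Real.pi ≤ 63 / 20 := by
    have := Real.pi_lt_d2
    linarith
  have h0 : 0 ≤ (9 / 4 * Real.sqrt d) ^ d := by positivity
  refine (sq_le_sq₀ (by positivity) h0).1 ?_
  have e1 : (Real.pi ^ d * Real.sqrt (d.factorial / (d + 1))) ^ 2 =
      Real.pi ^ (2 * d) * (d.factorial / (d + 1)) := by
    rw [mul_pow, Real.sq_sqrt (by positivity)]
    ring
  have e2 : ((9 / 4 * Real.sqrt d) ^ d) ^ 2 = (81 / 16 : ℝ) ^ d * (d : ℝ) ^ d := by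
    rw [← pow_mul, mul_comm d 2, pow_mul, mul_pow, Real.sq_sqrt (Nat.cast_nonneg d), mul_pow]
    norm_num
  rw [e1, e2, ← mul_div_assoc, div_le_iff₀ (by positivity)]
  have h1 := num_ineq d hd
  have h2 : Real.pi ^ (2 * d) ≤ (63 / 20 : ℝ) ^ (2 * d) :=
    pow_le_pow_left₀ Real.pi_pos.le hpi _
  have h3 := mul_le_mul_of_nonneg_right h2 (Nat.cast_nonneg (α := ℝ) d.factorial)
  linarith

end Pool.Agent.Helper66.SC
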