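import Pool.Agent.Helper66.SC.Tri
import Pool.Agent.Helper66.SC.Asm
import Pool.Agent.Helper66.SC.Num
import Pool.Agent.Helper75.SC.Alg
import Pool.Agent.Helper67.SC.Prob
import Pool.Agent.Helper10.SC.StGen
import Pool.Agent.Helper10.SC.StInt

/-!
# Vertex triangulations of the cube with at most `π^d sqrt (d! / (d+1))` simplices
-/

set_option autoImplicit false

namespace Pool.Agent.Helper66.SC

theorem stGoal : StGoal :=
  goal tri Pool.Agent.Helper75.SC.stAlg Pool.Agent.Helper67.SC.stProb
    Pool.Agent.Helper10.SC.stInt Pool.Agent.Helper10.SC.stGen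

end Pool.Agent.Helper66.SC
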