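import Pool.Agent.Helper66.SC.Spec
import Pool.Agent.Helper67.CubeTri
import Pool.Agent.Helper40.CC.Count

/-!
# Generic heights give a regular triangulation of the cube
-/

set_option autoImplicit false

namespace Pool.Agent.Helper66.SC

open Finset MeasureTheory Helper67.Cube

variable {d : ℕ}

/-- the vertex list of a tuple -/
def wl (s : Fin (d + 1) → Vt d) : Fin (d + 1) → Fin d → ℝ := fun i => pt (s i)

theorem bord_wl (s : Fin (d + 1) → Vt d) : bord (wl s) = mat s := rfl

theorem pt_inj {v v' : Vt d} (h : pt v = pt v') : v = v' := by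
  funext i
  have := congrFun h i
  simp only [pt] at this
  by_cases h1 : v i <;> by_cases h2 : v' i <;> simp_all

theorem inUnit_wl (s : Fin (d + 1) → Vt d) : InUnit (wl s) := by
  intro i j
  simp only [wl, pt]
  split_ifs <;> norm_num

/-- the value of the affine function at a point -/
def evx (l : Fin (d + 1) → ℝ) (x : Fin d → ℝ) : ℝ := l 0 + ∑ i, x i * l i.succ

theorem ev_eq (l : Fin (d + 1) → ℝ) (v : Vt d) : ev l v = evx l (pt v) := by
  rw [ev, evx, Fin.sum_univ_succ]
  simp [row]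

theorem ev_mulVec (s : Fin (d + 1) → Vt d) (l : Fin (d + 1) → ℝ) (i : Fin (d + 1)) :
    (mat s).mulVec l i = ev l (s i) := rfl

/-- the interpolating function -/
noncomputable def lf (s : Fin (d + 1) → Vt d) (h : Vt d → ℝ) : Fin (d + 1) → ℝ :=
  (mat s)⁻¹.mulVec (fun i => h (s i))

theorem ev_lf {s : Fin (d + 1) → Vt d} (hs : (mat s).det ≠ 0) (h : Vt d → ℝ)
    (i : Fin (d + 1)) : ev (lf s h) (s i) = h (s i) := by
  rw [← ev_mulVec, lf, Matrix.mulVec_mulVec, Matrix.mul_nonsing_inv _ (Ne.isUnit hs),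
    Matrix.one_mulVec]

theorem eq_lf {s : Fin (d + 1) → Vt d} (hs : (mat s).det ≠ 0) {h : Vt d → ℝ}
    {l : Fin (d + 1) → ℝ} (hl : ∀ i, ev l (s i) = h (s i)) : l = lf s h := by
  have e1 : (mat s).mulVec l = fun i => h (s i) := funext hl
  rw [lf, ← e1, Matrix.mulVec_mulVec, Matrix.nonsing_inv_mul _ (Ne.isUnit hs),
    Matrix.one_mulVec]

theorem low_iff {s : Fin (d + 1) → Vt d} (hs : (mat s).det ≠ 0) (h : Vt d → ℝ) :
    Low h s ↔ ∀ v, v ∉ Set.range s → ev (lf s h) v < h v := by
  constructor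
  · intro hL
    exact hL.2 _ (ev_lf hs h)
  · intro hL
    refine ⟨hs, fun l hl => ?_⟩
    rw [eq_lf hs hl]
    exact hL

/-- barycentric coordinates -/
noncomputable def bary (s : Fin (d + 1) → Vt d) (x : Fin d → ℝ) : Fin (d + 1) → ℝ :=
  Matrix.vecMul (Fin.cons 1 x) (mat s)⁻¹

theorem bary_spec {s : Fin (d + 1) → Vt d} (hs : (mat s).det ≠ 0) (x : Fin d → ℝ) :
    Matrix.vecMul (bary s x) (mat s) = Fin.cons 1 x := by
  rw [bary, Matrix.vecMul_vecMul, Matrix.nonsing_inv_mul _ (Ne.isUnit hs), Matrix.vecMul_one]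

theorem bary_unique {s : Fin (d + 1) → Vt d} (hs : (mat s).det ≠ 0) {x : Fin d → ℝ}
    {t : Fin (d + 1) → ℝ} (ht : Matrix.vecMul t (mat s) = Fin.cons 1 x) : t = bary s x := by
  rw [bary, ← ht, Matrix.vecMul_vecMul, Matrix.mul_nonsing_inv _ (Ne.isUnit hs),
    Matrix.vecMul_one]

theorem vecMul_eq (s : Fin (d + 1) → Vt d) (t : Fin (d + 1) → ℝ) :
    Matrix.vecMul t (mat s) = Fin.cons (∑ i, t i) (∑ i, t i • pt (s i)) := by
  funext k
  refine Fin.cases ?_ (fun k => ?_) k
  · simp [Matrix.vecMul, dotProduct, mat, row]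
  · simp [Matrix.vecMul, dotProduct, mat, row]

theorem mem_body_iff {s : Fin (d + 1) → Vt d} (hs : (mat s).det ≠ 0) (x : Fin d → ℝ) :
    x ∈ body (wl s) ↔ ∀ i, 0 ≤ bary s x i := by
  rw [body, mem_hull_range]
  constructor
  · rintro ⟨t, h0, h1, h2⟩
    have : t = bary s x := by
      refine bary_unique hs ?_
      rw [vecMul_eq, h1]
      have : ∑ i, t i • pt (s i) = x := h2
      rw [this]
    rw [← this]
    exact h0
  · intro h0
    have h1 := bary_spec hs x
    rw [vecMul_eq] at h1
    refine ⟨bary s x, h0, ?_, ?_⟩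
    · have := congrFun h1 0
      simpa using this
    · funext k
      have := congrFun h1 k.succ
      simpa [wl] using this

/-- the value at a point in the simplex -/
theorem evx_bary {s : Fin (d + 1) → Vt d} (hs : (mat s).det ≠ 0) (l : Fin (d + 1) → ℝ)
    (x : Fin d → ℝ) : evx l x = ∑ i, bary s x i * ev l (s i) := by
  have h1 : evx l x = dotProduct (Fin.cons 1 x : Fin (d + 1) → ℝ) l := by
    rw [evx, dotProduct, Fin.sum_univ_succ]
    simp
  rw [h1, ← bary_spec hs x, ← Matrix.dotProduct_mulVec]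
  rfl

theorem ev_le_of_low {h : Vt d → ℝ} {s : Fin (d + 1) → Vt d} (hL : Low h s) (v : Vt d) :
    ev (lf s h) v ≤ h v ∧ (ev (lf s h) v = h v → v ∈ Set.range s) := by
  by_cases hv : v ∈ Set.range s
  · obtain ⟨i, rfl⟩ := hv
    exact ⟨(ev_lf hL.1 h i).le, fun _ => ⟨i, rfl⟩⟩
  · have := (low_iff hL.1 h).1 hL v hv
    exact ⟨this.le, fun e => absurd e this.ne⟩

theorem sep_of_low {h : Vt d → ℝ} {s s' : Fin (d + 1) → Vt d} (hL : Low h s) (hL' : Low h s')
    (hne : Set.range s ≠ Set.range s') : Sep (wl s) (wl s') := by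
  set l := lf s h with hl
  set l' := lf s' h with hl'
  set H : Fin d → ℝ := fun i => l i.succ - l' i.succ with hH
  have hdot : ∀ v : Vt d, H ⬝ᵥ pt v = ev l v - ev l' v + (l' 0 - l 0) := by
    intro v
    rw [ev_eq, ev_eq, evx, evx, dotProduct]
    have : ∀ i, H i * pt v i = pt v i * l i.succ - pt v i * l' i.succ := fun i => by
      rw [hH]; ring
    rw [sum_congr rfl fun i _ => this i, sum_sub_distrib]
    ring
  have h1 : ∀ i, ev l' (s i) ≤ ev l (s i) ∧ (ev l' (s i) = ev l (s i) → s i ∈ Set.range s') := by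
    intro i
    rw [hl, ev_lf hL.1]
    exact ev_le_of_low hL' (s i)
  have h2 : ∀ i, ev l (s' i) ≤ ev l' (s' i) ∧
      (ev l (s' i) = ev l' (s' i) → s' i ∈ Set.range s) := by
    intro i
    rw [hl', ev_lf hL'.1]
    exact ev_le_of_low hL (s' i)
  refine ⟨H, l' 0 - l 0, ?_, fun i => ?_, fun i => ?_⟩
  · intro h0
    have h3 : ∀ v : Vt d, ev l v - ev l' v = l 0 - l' 0 := by
      intro v
      have := hdot v
      rw [h0, zero_dotProduct] at this
      linarith
    have h4 : l 0 - l' 0 = 0 := by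
      have a1 := h3 (s 0)
      have a2 := h3 (s' 0)
      have a3 := (h1 0).1
      have a4 := (h2 0).1
      linarith
    refine hne (Set.Subset.antisymm ?_ ?_)
    · rintro _ ⟨i, rfl⟩
      exact (h1 i).2 (by linarith [h3 (s i)])
    · rintro _ ⟨i, rfl⟩
      exact (h2 i).2 (by linarith [h3 (s' i)])
  · have e1 := hdot (s i)
    rw [wl, e1]
    refine ⟨by linarith [(h1 i).1], fun e => ?_⟩
    obtain ⟨j, hj⟩ := (h1 i).2 (by linarith)
    exact ⟨j, by rw [wl, hj]⟩
  · have e1 := hdot (s' i)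
    rw [wl, e1]
    refine ⟨by linarith [(h2 i).1], fun e => ?_⟩
    obtain ⟨j, hj⟩ := (h2 i).2 (by linarith)
    exact ⟨j, by rw [wl, hj]⟩

/-! ### The pivot step -/

theorem mat_update (s : Fin (d + 1) → Vt d) (i : Fin (d + 1)) (v : Vt d) :
    mat (Function.update s i v) = (mat s).updateRow i (row v) := by
  funext j k
  by_cases hj : j = i
  · subst hj
    simp [mat]
  · simp [mat, Function.update_of_ne hj, Matrix.updateRow_ne hj]

theorem det_update {s : Fin (d + 1) → Vt d} (hs : (mat s).det ≠ 0) (i : Fin (d + 1)) (v : Vt d) :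
    (mat (Function.update s i v)).det = bary s (pt v) i * (mat s).det := by
  have h1 : row v = ∑ k, bary s (pt v) k • (mat s) k := by
    have h2 := bary_spec hs (pt v)
    funext k
    have h3 := congrFun h2 k
    rw [Matrix.vecMul, dotProduct] at h3
    rw [Finset.sum_apply]
    simp only [Pi.smul_apply, smul_eq_mul]
    exact h3.symm
  rw [mat_update, h1, Matrix.det_updateRow_sum, smul_eq_mul]

theorem sum_bary {s : Fin (d + 1) → Vt d} (hs : (mat s).det ≠ 0) (x : Fin d → ℝ) :
    ∑ i, bary s x i = 1 := by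
  have h1 := bary_spec hs x
  rw [vecMul_eq] at h1
  simpa using congrFun h1 0

/-- a point is generic for the simplices -/
def GenPt (x : Fin d → ℝ) : Prop := ∀ s : Fin (d + 1) → Vt d, (mat s).det ≠ 0 →
  ∀ i, bary s x i ≠ 0

theorem pivot {s : Fin (d + 1) → Vt d} (hs : (mat s).det ≠ 0) {x : Fin d → ℝ}
    (hx : ∀ i, 0 < bary s x i) {h : Vt d → ℝ} {v : Vt d} (hv : h v < ev (lf s h) v) :
    ∃ s' : Fin (d + 1) → Vt d, (mat s').det ≠ 0 ∧ (∀ i, 0 ≤ bary s' x i) ∧
      evx (lf s' h) x < evx (lf s h) x := by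
  classical
  set lam := bary s x with hlam
  set mu := bary s (pt v) with hmu
  have hmu1 : ∑ i, mu i = 1 := sum_bary hs (pt v)
  have hne : (univ.filter fun i => 0 < mu i).Nonempty := by
    by_contra hcon
    rw [not_nonempty_iff_eq_empty, filter_eq_empty_iff] at hcon
    have : ∑ i, mu i ≤ 0 := sum_nonpos fun i hi => not_lt.1 (hcon hi)
    linarith
  obtain ⟨i0, hi0, hmin⟩ := exists_min_image _ (fun i => lam i / mu i) hne
  rw [mem_filter] at hi0
  have hm0 : 0 < mu i0 := hi0.2
  set t := lam i0 / mu i0 with ht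
  have ht0 : 0 < t := div_pos (hx i0) hm0
  set s' := Function.update s i0 v with hs'
  have hdet : (mat s').det ≠ 0 := by
    rw [hs', det_update hs]
    exact mul_ne_zero hm0.ne' hs
  set lam' : Fin (d + 1) → ℝ := Function.update (fun j => lam j - t * mu j) i0 t with hlam'
  have hz : lam i0 - t * mu i0 = 0 := by
    rw [ht, div_mul_cancel₀ _ hm0.ne', sub_self]
  have hsum : ∀ f : Vt d → ℝ, ∑ j, lam' j * f (s' j) =
      ∑ j, lam j * f (s j) + t * (f v - ∑ j, mu j * f (s j)) := by
    intro f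
    have e1 : ∑ j, lam' j * f (s' j) = t * f v +
        ∑ j ∈ univ.erase i0, (lam j - t * mu j) * f (s j) := by
      rw [← add_sum_erase univ _ (mem_univ i0)]
      congr 1
      · rw [hlam', hs', Function.update_self, Function.update_self]
      · refine sum_congr rfl fun j hj => ?_
        have hj' := ne_of_mem_erase hj
        rw [hlam', hs', Function.update_of_ne hj', Function.update_of_ne hj']
    have e2 : ∑ j, (lam j - t * mu j) * f (s j) = (lam i0 - t * mu i0) * f (s i0) +
        ∑ j ∈ univ.erase i0, (lam j - t * mu j) * f (s j) :=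
      (add_sum_erase univ _ (mem_univ i0)).symm
    rw [hz, zero_mul, zero_add] at e2
    rw [e1, ← e2]
    simp only [sub_mul, sum_sub_distrib, mul_sub, mul_sum, mul_assoc]
    ring
  have hb : lam' = bary s' x := by
    refine bary_unique hdet ?_
    funext k
    have e1 := hsum (fun u => row u k)
    have e2 := congrFun (bary_spec hs x) k
    have e3 := congrFun (bary_spec hs (pt v)) k
    rw [Matrix.vecMul, dotProduct] at e2 e3
    have e4 : ∑ j, mu j * row (s j) k = row v k := e3
    have e5 : ∑ j, lam j * row (s j) k = (Fin.cons 1 x : Fin (d + 1) → ℝ) k := e2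
    rw [e4, e5, sub_self, mul_zero, add_zero] at e1
    exact e1
  refine ⟨s', hdet, fun j => ?_, ?_⟩
  · rw [← hb]
    by_cases hj : j = i0
    · subst hj
      rw [hlam', Function.update_self]
      exact ht0.le
    · rw [hlam', Function.update_of_ne hj]
      by_cases hmj : 0 < mu j
      · have := hmin j (by simp [hmj])
        rw [ht]
        have e1 : lam i0 / mu i0 * mu j ≤ lam j := by
          rw [← le_div_iff₀ hmj]
          exact this
        linarith
      · have := mul_nonneg ht0.le (neg_nonneg.2 (not_lt.1 hmj))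
        have := (hx j).le
        linarith
  · rw [evx_bary hdet, evx_bary hs, ← hb]
    have e1 := hsum h
    have e2 : ∑ j, lam' j * ev (lf s' h) (s' j) = ∑ j, lam' j * h (s' j) :=
      sum_congr rfl fun j _ => by rw [ev_lf hdet]
    have e3 : ∑ j, lam j * ev (lf s h) (s j) = ∑ j, lam j * h (s j) :=
      sum_congr rfl fun j _ => by rw [ev_lf hs]
    have e4 : ev (lf s h) v = ∑ j, mu j * h (s j) := by
      rw [ev_eq, evx_bary hs]
      exact sum_congr rfl fun j _ => by rw [ev_lf hs]
    rw [e2, e3, e1, ← e4]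
    have := mul_pos ht0 (sub_pos.2 hv)
    linarith

/-- a generic point in some simplex is in a lower simplex -/
theorem exists_low {h : Vt d → ℝ} (hg : Gen h) {x : Fin d → ℝ} (hx : GenPt x)
    (hex : ∃ s : Fin (d + 1) → Vt d, (mat s).det ≠ 0 ∧ ∀ i, 0 ≤ bary s x i) :
    ∃ s : Fin (d + 1) → Vt d, Low h s ∧ ∀ i, 0 ≤ bary s x i := by
  classical
  set S : Finset (Fin (d + 1) → Vt d) := univ.filter fun s => (mat s).det ≠ 0 ∧
    ∀ i, 0 ≤ bary s x i with hS
  have hne : S.Nonempty := by
    obtain ⟨s, h1, h2⟩ := hex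
    exact ⟨s, by simp [hS, h1, h2]⟩
  obtain ⟨s, hs, hmin⟩ := exists_min_image S (fun s => evx (lf s h) x) hne
  rw [hS, mem_filter] at hs
  obtain ⟨-, h1, h2⟩ := hs
  refine ⟨s, (low_iff h1 h).2 fun v hv => ?_, h2⟩
  by_contra hcon
  have h3 : h v < ev (lf s h) v := lt_of_le_of_ne (not_lt.1 hcon)
    (hg s h1 _ (ev_lf h1 h) v hv).symm
  obtain ⟨s', a1, a2, a3⟩ := pivot h1 (fun i => lt_of_le_of_ne (h2 i) (hx s h1 i).symm) h3
  have := hmin s' (by simp [hS, a1, a2])
  linarith

/-! ### Generic points -/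

theorem null_affine (a0 : ℝ) (a : Fin d → ℝ) (hne : ∃ x : Fin d → ℝ, a0 + x ⬝ᵥ a ≠ 0) :
    volume {x : Fin d → ℝ | a0 + x ⬝ᵥ a = 0} = 0 := by
  let f : (Fin d → ℝ) →ₗ[ℝ] ℝ := dotProductBilin ℝ ℝ a
  have hf : ∀ x, f x = x ⬝ᵥ a := fun x => by rw [dotProduct_comm]; rfl
  have hsub : {x : Fin d → ℝ | a0 + x ⬝ᵥ a = 0} ⊆
      ((AffineSubspace.mk' (-a0) ⊥).comap f.toAffineMap : AffineSubspace ℝ (Fin d → ℝ)) := by
    intro x hx
    have h5 : f x = -a0 := by rw [hf]; linarith [show a0 + x ⬝ᵥ a = 0 from hx]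
    simp [h5]
  refine measure_mono_null hsub (Measure.addHaar_affineSubspace _ _ ?_)
  intro htop
  obtain ⟨x, hx⟩ := hne
  have : x ∈ ((AffineSubspace.mk' (-a0) ⊥).comap f.toAffineMap :
      AffineSubspace ℝ (Fin d → ℝ)) := by
    rw [htop]; trivial
  have h6 : f x + a0 = 0 := by simpa [sub_eq_zero] using this
  rw [hf] at h6
  exact hx (by linarith)

theorem bary_affine (s : Fin (d + 1) → Vt d) (x : Fin d → ℝ) (i : Fin (d + 1)) :
    bary s x i = (mat s)⁻¹ 0 i + x ⬝ᵥ (fun k => (mat s)⁻¹ k.succ i) := by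
  rw [bary, Matrix.vecMul, dotProduct, Fin.sum_univ_succ, dotProduct]
  simp

theorem bary_vertex {s : Fin (d + 1) → Vt d} (hs : (mat s).det ≠ 0) (i : Fin (d + 1)) :
    bary s (pt (s i)) i = 1 := by
  have h1 : Pi.single i (1 : ℝ) = bary s (pt (s i)) := by
    refine bary_unique hs ?_
    rw [Matrix.single_one_vecMul]
    rfl
  rw [← h1, Pi.single_eq_same]

theorem ae_genPt : ∀ᵐ x : Fin d → ℝ, GenPt x := by
  simp only [GenPt]
  rw [ae_all_iff]
  intro s
  by_cases hs : (mat s).det = 0
  · exact Filter.Eventually.of_forall fun x h => absurd hs h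
  · have : ∀ᵐ x : Fin d → ℝ, ∀ i, bary s x i ≠ 0 := by
      rw [ae_all_iff]
      intro i
      have h1 := null_affine ((mat s)⁻¹ 0 i) (fun k => (mat s)⁻¹ k.succ i)
        ⟨pt (s i), by rw [← bary_affine, bary_vertex hs]; norm_num⟩
      rw [ae_iff]
      simpa only [not_not, bary_affine] using h1
    filter_upwards [this] with x hx _
    exact hx

/-! ### A first simplex -/

theorem det_of_affineIndependent {w : Fin (d + 1) → Fin d → ℝ} (hw : AffineIndependent ℝ w) :
    (bord w).det ≠ 0 := by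
  intro h0
  obtain ⟨t, ht0, ht⟩ := Matrix.exists_vecMul_eq_zero_iff.2 h0
  apply ht0
  have h1 : ∑ i, t i = 0 := by
    have := congrFun ht 0
    simpa [Matrix.vecMul, dotProduct, bord] using this
  have h2 : ∑ i, t i • w i = 0 := by
    funext k
    have := congrFun ht k.succ
    simpa [Matrix.vecMul, dotProduct, bord] using this
  rw [affineIndependent_iff_of_fintype] at hw
  funext i
  refine hw t h1 ?_ i
  rw [Finset.weightedVSub_eq_linear_combination _ h1]
  exact h2

theorem exists_simplex (x : Fin d → ℝ) (hx : x ∈ cube d) :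
    ∃ s : Fin (d + 1) → Vt d, (mat s).det ≠ 0 ∧ ∀ i, 0 ≤ bary s x i := by
  classical
  set V : Finset (Fin d → ℝ) := univ.image (pt : Vt d → Fin d → ℝ) with hV
  have hVe : (V : Set (Fin d → ℝ)) = {v : Fin d → ℝ | ∀ i, v i = 0 ∨ v i = 1} := by
    ext v
    rw [hV, coe_image, coe_univ, Set.image_univ, Set.mem_range, Set.mem_ofPred_eq]
    constructor
    · rintro ⟨b, rfl⟩ i
      simp only [pt]
      split_ifs <;> simp
    · intro h
      refine ⟨fun i => decide (v i = 1), ?_⟩
      funext i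
      simp only [pt, decide_eq_true_eq]
      rcases h i with h1 | h1 <;> rw [h1] <;> norm_num
  have hmemV : ∀ v : Fin d → ℝ, v ∈ V ↔ ∀ i, v i = 0 ∨ v i = 1 := fun v => by
    rw [← mem_coe, hVe, Set.mem_ofPred_eq]
  have hspan : affineSpan ℝ (V : Set (Fin d → ℝ)) = ⊤ := by
    refine Helper40.CC.span_top V ((hmemV _).2 fun i => Or.inl rfl) fun i => (hmemV _).2 fun j => ?_
    by_cases hij : j = i
    · subst hij; right; simp
    · left; simp [Pi.single_eq_of_ne hij]
  have h1 := Helper40.CC.cube_hull x hx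
  rw [← hVe, convexHull_eq_union] at h1
  simp only [exists_prop, Set.mem_iUnion] at h1
  obtain ⟨t, h2, h3, h4⟩ := h1
  obtain ⟨t', h5, h6, h7, h8⟩ := Helper40.CC.extend V t hspan (by exact_mod_cast h2) h3
  let e : Fin (d + 1) ≃ t' := (Finset.equivFinOfCardEq h7).symm
  have h9 : ∀ i, ∃ v : Vt d, pt v = (e i : Fin d → ℝ) := by
    intro i
    have := h6 (e i).2
    rw [hV, mem_image] at this
    obtain ⟨v, -, hv⟩ := this
    exact ⟨v, hv⟩
  choose s hs using h9
  have hw : wl s = fun i => (e i : Fin d → ℝ) := funext hs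
  have hdet : (mat s).det ≠ 0 := by
    rw [← bord_wl]
    refine det_of_affineIndependent ?_
    rw [hw]
    exact h8.comp_embedding e.toEmbedding
  refine ⟨s, hdet, (mem_body_iff hdet x).1 ?_⟩
  rw [body]
  refine convexHull_mono ?_ h4
  intro v hv
  have hv' : v ∈ t' := h5 (by exact_mod_cast hv)
  exact ⟨e.symm ⟨v, hv'⟩, by rw [hw]; simp⟩

/-! ### The cover -/

theorem cover_low {h : Vt d → ℝ} (hg : Gen h) :
    (⋃ s : {s : Fin (d + 1) → Vt d // Low h s}, body (wl s.1)) = cube d := by
  have hclosed : IsClosed (⋃ s : {s : Fin (d + 1) → Vt d // Low h s}, body (wl s.1)) :=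
    isClosed_iUnion_of_finite fun s => isClosed_body _
  have hsub : (⋃ s : {s : Fin (d + 1) → Vt d // Low h s}, body (wl s.1)) ⊆ cube d :=
    Set.iUnion_subset fun s => body_subset_cube (inUnit_wl _)
  apply Set.Subset.antisymm hsub
  set C := ⋃ s : {s : Fin (d + 1) → Vt d // Low h s}, body (wl s.1) with hC
  have hO : IsOpen (interior (cube d) \ C) := isOpen_interior.sdiff hclosed
  have hO0 : interior (cube d) \ C = ∅ := by
    rw [← hO.measure_eq_zero_iff volume]
    have h1 := ae_genPt (d := d)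
    rw [ae_iff] at h1
    refine measure_mono_null ?_ h1
    rintro x ⟨hx1, hx2⟩ hx3
    obtain ⟨s, hs1, hs2⟩ := exists_low hg hx3 (exists_simplex x (interior_subset hx1))
    exact hx2 (Set.mem_iUnion.2 ⟨⟨s, hs1⟩, (mem_body_iff hs1.1 x).2 hs2⟩)
  have h1 : interior (cube d) ⊆ C := Set.sdiff_eq_empty.1 hO0
  have h2 : closure (interior (cube d)) ⊆ C := closure_minimal h1 hclosed
  refine Set.Subset.trans ?_ h2
  have hint : (interior (cube d)).Nonempty := by
    rw [cube_eq]
    refine ⟨fun _ => 1/2, ?_⟩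
    rw [← Set.pi_univ_Icc, interior_pi_set Set.finite_univ]
    intro i _
    simp only [Pi.zero_apply, Pi.one_apply, interior_Icc]
    norm_num
  have hconv : Convex ℝ (cube d) := by rw [cube_eq]; exact convex_Icc 0 1
  rw [hconv.closure_interior_eq_closure_of_nonempty_interior hint]
  exact subset_closure

/-! ### The triangulation -/

theorem s_inj {s : Fin (d + 1) → Vt d} (hs : (mat s).det ≠ 0) : Function.Injective s := by
  intro i j hij
  by_contra hne
  refine hs (Matrix.det_zero_of_row_eq hne ?_)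
  funext k
  simp [mat, hij]

theorem low_perm {h : Vt d → ℝ} {s : Fin (d + 1) → Vt d} (hL : Low h s)
    (σ : Equiv.Perm (Fin (d + 1))) : Low h (s ∘ σ) := by
  have hr : Set.range (s ∘ σ) = Set.range s := by
    rw [Set.range_comp, σ.surjective.range_eq, Set.image_univ]
  refine ⟨?_, fun l hl v hv => ?_⟩
  · have e1 : mat (s ∘ σ) = (mat s).submatrix σ id := rfl
    rw [e1, Matrix.det_permute]
    exact mul_ne_zero (by
      rcases Int.units_eq_one_or (Equiv.Perm.sign σ) with h1 | h1 <;> rw [h1] <;> norm_num) hL.1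
  · refine hL.2 l (fun i => ?_) v (by rwa [hr] at hv)
    have := hl (σ.symm i)
    simpa using this

theorem tri : StTri := by
  classical
  intro d h hg
  set 𝒯 : Finset (Finset (Vt d)) := (univ.filter fun s : Fin (d + 1) → Vt d => Low h s).image
    (fun s => univ.image s) with h𝒯
  have hrep : ∀ T : 𝒯, ∃ s : Fin (d + 1) → Vt d, Low h s ∧ univ.image s = (T : Finset (Vt d)) := by
    rintro ⟨T, hT⟩
    rw [h𝒯, mem_image] at hT
    obtain ⟨s, hs, hsT⟩ := hT
    rw [mem_filter] at hs
    exact ⟨s, hs.2, hsT⟩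
  choose S hS1 hS2 using hrep
  set W : Fin 𝒯.card → Fin (d + 1) → Fin d → ℝ := fun k => wl (S (𝒯.equivFin.symm k)) with hW
  have hrange : ∀ T T' : 𝒯, T ≠ T' → Set.range (S T) ≠ Set.range (S T') := by
    intro T T' hne he
    apply hne
    apply Subtype.ext
    rw [← hS2 T, ← hS2 T', ← coe_inj]
    simpa using he
  have hsep : ∀ k k', k ≠ k' → Sep (W k) (W k') := by
    intro k k' hkk
    refine sep_of_low (hS1 _) (hS1 _) (hrange _ _ fun e => hkk ?_)
    exact 𝒯.equivFin.symm.injective e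
  have hcov : (⋃ k, body (W k)) = cube d := by
    rw [← cover_low hg]
    apply Set.Subset.antisymm
    · refine Set.iUnion_subset fun k => ?_
      exact Set.subset_iUnion (fun s : {s : Fin (d + 1) → Vt d // Low h s} => body (wl s.1))
        ⟨S (𝒯.equivFin.symm k), hS1 _⟩
    · refine Set.iUnion_subset fun s => ?_
      have hmem : univ.image s.1 ∈ 𝒯 := by
        rw [h𝒯, mem_image]
        exact ⟨s.1, by simp [s.2], rfl⟩
      refine Set.subset_iUnion_of_subset (𝒯.equivFin ⟨_, hmem⟩) ?_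
      have e1 : W (𝒯.equivFin ⟨_, hmem⟩) = wl (S ⟨_, hmem⟩) := by
        rw [hW]
        simp
      rw [e1, body, body]
      refine convexHull_mono ?_
      rintro _ ⟨i, rfl⟩
      have h1 : s.1 i ∈ univ.image (S ⟨_, hmem⟩) := by
        rw [hS2]
        exact mem_image_of_mem _ (mem_univ i)
      rw [mem_image] at h1
      obtain ⟨j, -, hj⟩ := h1
      exact ⟨j, by rw [wl, wl, hj]⟩
  refine ⟨𝒯.card, W, ⟨⟨⟨fun k => ?_, hcov⟩, fun k k' hkk => ?_⟩, fun k k' => ?_⟩, fun k i j => ?_,
    ?_⟩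
  · refine affineIndependent_of_det ?_
    rw [hW, bord_wl]
    exact (hS1 _).1
  · exact (hsep k k' hkk).disjoint_interior
  · by_cases hkk : k = k'
    · subst hkk
      rw [Set.inter_self, Set.inter_self]; rfl
    · exact (hsep k k' hkk).inter
  · simp only [hW, wl, pt]
    split_ifs <;> simp
  · -- counting
    let F : 𝒯 × Equiv.Perm (Fin (d + 1)) → {s : Fin (d + 1) → Vt d // Low h s} :=
      fun p => ⟨S p.1 ∘ p.2, low_perm (hS1 p.1) p.2⟩
    have hF : Function.Injective F := by
      rintro ⟨T, σ⟩ ⟨T', σ'⟩ he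
      have h1 : S T ∘ σ = S T' ∘ σ' := congrArg Subtype.val he
      have h2 : T = T' := by
        by_contra hne
        apply hrange T T' hne
        have a1 : Set.range (S T ∘ σ) = Set.range (S T) := by
          rw [Set.range_comp, σ.surjective.range_eq, Set.image_univ]
        have a2 : Set.range (S T' ∘ σ') = Set.range (S T') := by
          rw [Set.range_comp, σ'.surjective.range_eq, Set.image_univ]
        rw [← a1, h1, a2]
      subst h2
      congr 1
      ext i : 1
      exact s_inj (hS1 T).1 (congrFun h1 i)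
    have h3 := Nat.card_le_card_of_injective F hF
    rw [Nat.card_prod] at h3
    simp only [Nat.card_eq_fintype_card, Fintype.card_coe, Fintype.card_perm,
      Fintype.card_fin] at h3
    rw [numLow, Nat.card_eq_fintype_card]
    exact h3

end Pool.Agent.Helper66.SC
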